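import Pool.Agent.Y594.NT.Stm2

/-!
# NT2-LATN: tuples with sum zero in a box, with prescribed divisors (helper349, for helper594)
-/

set_option autoImplicit false

namespace Pool.Agent.Y349.NT2

open Finset Pool.Agent.H785R2.ABC

theorem latn : Pool.Agent.Y594.NT.S_LATN := by
  classical
  intro n hn k d hd N hN E hE
  rcases E.eq_empty_or_nonempty with h0 | ⟨z₀, hz₀⟩
  · subst h0
    simp only [card_empty, Nat.cast_zero, zero_mul]
    positivity
  -- Bezout coefficients
  obtain ⟨e, he⟩ : ∃ e : Fin n → ℤ, ∑ i, (d i : ℤ) * e i = 1 := by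
    obtain ⟨hg, -, hdv, -⟩ := hE z₀ hz₀
    obtain ⟨c, hc⟩ := Finset.gcd_eq_sum_mul (univ : Finset (Fin n)) z₀
    rw [hg] at hc
    choose y hy using hdv
    refine ⟨fun i => y i * c i, ?_⟩
    rw [hc]
    exact sum_congr rfl fun i _ => by rw [hy i, mul_assoc]
  set D : ℕ := d k with hD
  have hD1 : 1 ≤ D := hd k
  have : NeZero D := ⟨by omega⟩
  have heD : ∑ i ∈ univ.erase k, (d i : ZMod D) * (e i : ZMod D) = 1 := by
    have h1 : ((∑ i, (d i : ℤ) * e i : ℤ) : ZMod D) = 1 := by rw [he]; simp
    rw [← Finset.add_sum_erase univ _ (mem_univ k)] at h1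
    push_cast at h1
    rw [← hD, ZMod.natCast_self, zero_mul, zero_add] at h1
    exact h1
  -- the boxes
  set B : Fin n → ℕ := fun i => N i / d i with hB
  have hBD : ∀ i, i ≠ k → D ≤ B i := by
    intro i hi
    rw [hB]
    exact (Nat.le_div_iff_mul_le (hd i)).2 (by rw [mul_comm]; exact hN i hi)
  set S : Fin n → Finset (ZMod D × ℕ) := fun i =>
    if i = k then {(0, 0)} else univ ×ˢ range (2 * B i / D + 1) with hS
  set y : (Fin n → ℤ) → Fin n → ℤ := fun z i => z i / d i with hy
  set w : (Fin n → ℤ) → Fin n → ℕ := fun z i => (y z i + B i).toNat with hw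
  set Φ : (Fin n → ℤ) × ZMod D → Fin n → ZMod D × ℕ := fun p i =>
    if i = k then (0, 0) else ((y p.1 i : ZMod D) + p.2 * (e i : ZMod D), w p.1 i / D) with hΦ
  have hdy : ∀ z ∈ E, ∀ i, (d i : ℤ) * y z i = z i := by
    intro z hz i
    exact Int.mul_ediv_cancel' ((hE z hz).2.2.1 i)
  have hyB : ∀ z ∈ E, ∀ i, i ≠ k → -(B i : ℤ) ≤ y z i ∧ y z i ≤ B i := by
    intro z hz i hi
    have h1 := (hE z hz).2.2.2 i hi
    have h2 : (y z i).natAbs ≤ B i := by
      rw [hB]
      refine (Nat.le_div_iff_mul_le (hd i)).2 ?_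
      rw [← hdy z hz i, Int.natAbs_mul, Int.natAbs_natCast, mul_comm] at h1
      exact h1
    constructor <;> omega
  have hwy : ∀ z ∈ E, ∀ i, i ≠ k → ((w z i : ℕ) : ℤ) = y z i + B i := by
    intro z hz i hi
    have := hyB z hz i hi
    simp only [hw]
    omega
  have hmaps : ∀ p ∈ E ×ˢ (univ : Finset (ZMod D)), Φ p ∈ Fintype.piFinset S := by
    intro p hp
    rw [mem_product] at hp
    rw [Fintype.mem_piFinset]
    intro i
    simp only [hΦ, hS]
    by_cases hi : i = k
    · rw [if_pos hi, if_pos hi]; exact mem_singleton_self _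
    · rw [if_neg hi, if_neg hi, mem_product]
      refine ⟨mem_univ _, ?_⟩
      rw [mem_range, Nat.lt_succ_iff]
      apply Nat.div_le_div_right
      have h1 := hwy p.1 hp.1 i hi
      have h2 := hyB p.1 hp.1 i hi
      omega
  have hinj : Set.InjOn Φ (E ×ˢ (univ : Finset (ZMod D)) : Finset _) := by
    intro p hp q hq hpq
    obtain ⟨z, t⟩ := p
    obtain ⟨z', t'⟩ := q
    rw [mem_coe, mem_product] at hp hq
    have hz : z ∈ E := hp.1
    have hz' : z' ∈ E := hq.1
    have hcomp : ∀ i, i ≠ k → (y z i : ZMod D) + t * (e i : ZMod D) =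
        (y z' i : ZMod D) + t' * (e i : ZMod D) ∧ w z i / D = w z' i / D := by
      intro i hi
      have h1 := congrFun hpq i
      simp only [hΦ, if_neg hi, Prod.mk.injEq] at h1
      exact h1
    have hsum : ∀ z ∈ E, ∀ t : ZMod D,
        ∑ i ∈ univ.erase k, (d i : ZMod D) * ((y z i : ZMod D) + t * (e i : ZMod D)) = t := by
      intro z hz t
      have h1 : ∑ i ∈ univ.erase k, (d i : ZMod D) * (y z i : ZMod D) = 0 := by
        have h2 : (∑ i ∈ univ.erase k, (d i : ℤ) * y z i) = - z k := by
          have h3 := (hE z hz).2.1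
          rw [← Finset.add_sum_erase univ _ (mem_univ k)] at h3
          rw [sum_congr rfl fun i _ => hdy z hz i]
          linarith
        have h4 : ((∑ i ∈ univ.erase k, (d i : ℤ) * y z i : ℤ) : ZMod D) = 0 := by
          rw [h2, ZMod.intCast_zmod_eq_zero_iff_dvd]
          exact ((hE z hz).2.2.1 k).neg_right
        push_cast at h4
        exact h4
      calc ∑ i ∈ univ.erase k, (d i : ZMod D) * ((y z i : ZMod D) + t * (e i : ZMod D))
          = ∑ i ∈ univ.erase k, (d i : ZMod D) * (y z i : ZMod D) +
            t * ∑ i ∈ univ.erase k, (d i : ZMod D) * (e i : ZMod D) := by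
              rw [mul_sum, ← sum_add_distrib]
              exact sum_congr rfl fun i _ => by ring
        _ = t := by rw [h1, heD]; ring
    have htt : t = t' := by
      rw [← hsum z hz t, ← hsum z' hz' t']
      exact sum_congr rfl fun i hi => by rw [(hcomp i (mem_erase.1 hi).1).1]
    subst htt
    have hyy : ∀ i, i ≠ k → z i = z' i := by
      intro i hi
      obtain ⟨h1, h2⟩ := hcomp i hi
      have h3 : (y z i : ZMod D) = (y z' i : ZMod D) := add_right_cancel h1
      have h4 : ((w z i : ℕ) : ZMod D) = ((w z' i : ℕ) : ZMod D) := by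
        have h5 : (((w z i : ℕ) : ℤ) : ZMod D) = (((w z' i : ℕ) : ℤ) : ZMod D) := by
          rw [hwy z hz i hi, hwy z' hz' i hi]
          push_cast
          rw [h3]
        exact_mod_cast h5
      rw [ZMod.natCast_eq_natCast_iff'] at h4
      have h6 : w z i = w z' i := by
        rw [← Nat.div_add_mod (w z i) D, ← Nat.div_add_mod (w z' i) D, h2, h4]
      have h7 : y z i = y z' i := by
        have h8 := hwy z hz i hi
        have h9 := hwy z' hz' i hi
        rw [h6] at h8
        linarith
      rw [← hdy z hz i, ← hdy z' hz' i, h7]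
    have hzz : z = z' := by
      funext i
      by_cases hi : i = k
      · subst hi
        have h3 := (hE z hz).2.1
        have h4 := (hE z' hz').2.1
        rw [← Finset.add_sum_erase univ _ (mem_univ i)] at h3 h4
        rw [sum_congr rfl fun j hj => hyy j (mem_erase.1 hj).1] at h3
        linarith
      · exact hyy i hi
    rw [hzz]
  have hcard := card_le_card_of_injOn Φ hmaps hinj
  rw [card_product, card_univ, ZMod.card, Fintype.card_piFinset,
    ← Finset.mul_prod_erase univ _ (mem_univ k)] at hcard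
  have hSk : (S k).card = 1 := by simp [hS]
  have hSi : ∏ i ∈ univ.erase k, (S i).card =
      ∏ i ∈ univ.erase k, (D * (2 * B i / D + 1)) := by
    apply prod_congr rfl
    intro i hi
    simp only [hS]
    rw [if_neg (mem_erase.1 hi).1, card_product, card_univ, ZMod.card, card_range]
  rw [hSk, one_mul, hSi] at hcard
  -- multiply by the product of the `d i`
  have h3 : E.card * ∏ i, d i ≤ ∏ i ∈ univ.erase k, (3 * N i) := by
    rw [← Finset.mul_prod_erase univ _ (mem_univ k), ← mul_assoc]
    calc E.card * d k * ∏ i ∈ univ.erase k, d i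
        ≤ (∏ i ∈ univ.erase k, (D * (2 * B i / D + 1))) * ∏ i ∈ univ.erase k, d i :=
          Nat.mul_le_mul_right _ hcard
      _ = ∏ i ∈ univ.erase k, (D * (2 * B i / D + 1) * d i) := by rw [← prod_mul_distrib]
      _ ≤ _ := by
          apply prod_le_prod (fun i _ => Nat.zero_le _)
          intro i hi
          have hik := (mem_erase.1 hi).1
          have h4 : D * (2 * B i / D) ≤ 2 * B i := Nat.mul_div_le _ _
          have h5 := hBD i hik
          have h6 : B i * d i ≤ N i := Nat.div_mul_le_self _ _
          calc D * (2 * B i / D + 1) * d i ≤ (3 * B i) * d i := by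
                apply Nat.mul_le_mul_right
                rw [mul_add, mul_one]
                omega
            _ = 3 * (B i * d i) := by ring
            _ ≤ 3 * N i := Nat.mul_le_mul_left _ h6
  have h4 : ∏ i ∈ univ.erase k, (3 * N i) = 3 ^ (n - 1) * ∏ i ∈ univ.erase k, N i := by
    rw [prod_mul_distrib, prod_const, card_erase_of_mem (mem_univ k), card_univ, Fintype.card_fin]
  rw [h4] at h3
  exact_mod_cast h3

end Pool.Agent.Y349.NT2
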