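import Pool.Agent.Y594.NT.Stm2

/-!
# NT2-USUM: the sum of `u ^ (-δ) / rad u` is bounded (helper349, for helper594)
-/

set_option autoImplicit false

namespace Pool.Agent.Y349.NT2

open Finset Pool.Agent.H785R2.ABC

theorem rad_one : rad 1 = 1 := by simp [rad]

theorem rad_mul_coprime {m n : ℕ} (h : Nat.Coprime m n) : rad (m * n) = rad m * rad n := by
  unfold rad
  rw [h.primeFactors_mul, prod_union h.disjoint_primeFactors]

theorem rad_prime_pow {p k : ℕ} (hp : p.Prime) : rad (p ^ (k + 1)) = p := by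
  unfold rad
  rw [Nat.primeFactors_prime_pow (Nat.succ_ne_zero k) hp, prod_singleton]

theorem usum : Pool.Agent.Y594.NT.S_USUM := by
  intro δ hδ
  set f : ℕ → ℝ := fun u => (u : ℝ) ^ (-δ) / (rad u : ℝ) with hf
  set r₂ : ℝ := (2 : ℝ) ^ (-δ) with hr₂
  have hr₂1 : r₂ < 1 := Real.rpow_lt_one_of_one_lt_of_neg (by norm_num) (by linarith)
  have hζ : Summable fun n : ℕ => ((n : ℝ) ^ (1 + δ))⁻¹ := by
    have := Real.summable_nat_rpow_inv.2 (show 1 < 1 + δ by linarith)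
    exact this
  have hf₁ : f 1 = 1 := by simp [hf, rad_one]
  have hmul : ∀ {m n : ℕ}, Nat.Coprime m n → f (m * n) = f m * f n := by
    intro m n h
    simp only [hf]
    rw [rad_mul_coprime h]
    push_cast
    rw [Real.mul_rpow (Nat.cast_nonneg _) (Nat.cast_nonneg _)]
    rw [mul_div_mul_comm]
  have hf0 : ∀ u, 0 ≤ f u := fun u =>
    div_nonneg (Real.rpow_nonneg (Nat.cast_nonneg _) _) (Nat.cast_nonneg _)
  -- prime powers
  have hpow : ∀ p : ℕ, p.Prime → ∀ k : ℕ,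
      f (p ^ (k + 1)) = ((p : ℝ) ^ (-δ)) ^ k * ((p : ℝ) ^ (1 + δ))⁻¹ := by
    intro p hp k
    have hp0 : (0 : ℝ) < p := by exact_mod_cast hp.pos
    simp only [hf]
    rw [rad_prime_pow hp]
    push_cast
    rw [← Real.rpow_natCast, ← Real.rpow_mul hp0.le, ← Real.rpow_natCast, ← Real.rpow_mul hp0.le,
      ← Real.rpow_neg hp0.le, ← Real.rpow_add hp0]
    rw [div_eq_iff hp0.ne']
    nth_rewrite 3 [← Real.rpow_one (p : ℝ)]
    rw [← Real.rpow_add hp0]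
    congr 1
    push_cast
    ring
  have hr : ∀ p : ℕ, p.Prime → (p : ℝ) ^ (-δ) ≤ r₂ := by
    intro p hp
    exact Real.rpow_le_rpow_of_nonpos (by norm_num) (by exact_mod_cast hp.two_le) (by linarith)
  have hr0 : ∀ p : ℕ, 0 ≤ (p : ℝ) ^ (-δ) := fun p => Real.rpow_nonneg (Nat.cast_nonneg _) _
  have hs1 : ∀ p : ℕ, p.Prime → Summable fun k : ℕ => f (p ^ (k + 1)) := by
    intro p hp
    simp only [hpow p hp]
    exact (summable_geometric_of_lt_one (hr0 p) ((hr p hp).trans_lt hr₂1)).mul_right _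
  have hs : ∀ p : ℕ, p.Prime → Summable fun k : ℕ => f (p ^ k) := by
    intro p hp
    exact (summable_nat_add_iff 1).1 (hs1 p hp)
  have hsum : ∀ {p : ℕ}, p.Prime → Summable (fun n : ℕ ↦ ‖f (p ^ n)‖) := by
    intro p hp
    simpa only [Real.norm_of_nonneg (hf0 _)] using hs p hp
  have hts : ∀ p : ℕ, p.Prime → ∑' k : ℕ, f (p ^ k) ≤
      Real.exp (((p : ℝ) ^ (1 + δ))⁻¹ * (1 - r₂)⁻¹) := by
    intro p hp
    rw [(hs p hp).tsum_eq_zero_add, pow_zero, hf₁]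
    simp only [hpow p hp]
    rw [tsum_mul_right, tsum_geometric_of_lt_one (hr0 p) ((hr p hp).trans_lt hr₂1)]
    have h1 : (1 - (p : ℝ) ^ (-δ))⁻¹ ≤ (1 - r₂)⁻¹ :=
      inv_anti₀ (by linarith) (by linarith [hr p hp])
    have h2 : (0 : ℝ) ≤ ((p : ℝ) ^ (1 + δ))⁻¹ :=
      inv_nonneg.2 (Real.rpow_nonneg (Nat.cast_nonneg _) _)
    have h3 := Real.add_one_le_exp (((p : ℝ) ^ (1 + δ))⁻¹ * (1 - r₂)⁻¹)
    nlinarith [mul_le_mul_of_nonneg_left h1 h2]
  refine ⟨Real.exp ((∑' n : ℕ, ((n : ℝ) ^ (1 + δ))⁻¹) * (1 - r₂)⁻¹), Real.exp_pos _, ?_⟩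
  intro N
  obtain ⟨-, hH⟩ := EulerProduct.summable_and_hasSum_smoothNumbers_prod_primesBelow_tsum
    hf₁ hmul hsum (N + 1)
  have h1 : ∑ u ∈ Icc 1 N, f u ≤ ∏ p ∈ (N + 1).primesBelow, ∑' n : ℕ, f (p ^ n) := by
    have h2 : ∀ u ∈ Icc 1 N, u ∈ (N + 1).smoothNumbers := by
      intro u hu
      rw [mem_Icc] at hu
      exact Nat.mem_smoothNumbers_of_lt hu.1 (by omega)
    rw [← Finset.sum_subtype_of_mem f h2]
    exact sum_le_hasSum _ (fun i _ => hf0 _) hH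
  refine h1.trans ?_
  calc ∏ p ∈ (N + 1).primesBelow, ∑' n : ℕ, f (p ^ n)
      ≤ ∏ p ∈ (N + 1).primesBelow, Real.exp (((p : ℝ) ^ (1 + δ))⁻¹ * (1 - r₂)⁻¹) := by
        refine prod_le_prod (fun p _ => tsum_nonneg fun n => hf0 _) fun p hp => hts p ?_
        exact Nat.prime_of_mem_primesBelow hp
    _ = Real.exp ((∑ p ∈ (N + 1).primesBelow, ((p : ℝ) ^ (1 + δ))⁻¹) * (1 - r₂)⁻¹) := by
        rw [← Real.exp_sum, sum_mul]
    _ ≤ _ := by
        apply Real.exp_le_exp.2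
        apply mul_le_mul_of_nonneg_right _ (inv_nonneg.2 (by linarith))
        exact hζ.sum_le_tsum _ fun n _ => inv_nonneg.2 (Real.rpow_nonneg (Nat.cast_nonneg _) _)

end Pool.Agent.Y349.NT2
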